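import Pool.Agent.Helper88.MADR.Frob
import Pool.Agent.Helper15.MADR.Reg

/-!
# Over the algebraic closure of a finite field Murre's conjectures imply that rational and
homological equivalence coincide

The Frobenius endomorphism of a motive over a finite field acts on the cycle classes of dimension
`l` as `q^l`, and this number is not an eigenvalue of Frobenius on `H_i` for `i ≠ 2l` (weights).
-/

open CategoryTheory MonoidalCategory Limits TensorProduct
open Pool.Agent.Helper15.Murre Pool.Agent.Helper58.MAD Pool.Agent.Helper88.MADR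

universe w v u

set_option linter.unusedSectionVars false

namespace Pool.Agent.Helper84.MADR

section cat

variable {C : Type u} [Category.{v} C] [Preadditive C] [Linear ℚ C]

lemma comp_aeval {A N : C} (α : A ⟶ N) (φ : End N) (c : ℚ) (h : α ≫ φ.asHom = c • α)
    (P : Polynomial ℚ) : α ≫ (Polynomial.aeval φ P : End N).asHom = P.eval c • α := by
  induction P using Polynomial.induction_on' with
  | add p q hp hq =>
    rw [map_add]
    change α ≫ ((Polynomial.aeval φ p : End N).asHom + (Polynomial.aeval φ q : End N).asHom) = _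
    rw [Preadditive.comp_add, hp, hq, Polynomial.eval_add, add_smul]
  | monomial n a =>
    rw [Polynomial.aeval_monomial, Polynomial.eval_monomial]
    have hpow : ∀ n : ℕ, α ≫ (φ ^ n : End N).asHom = c ^ n • α := by
      intro n
      induction n with
      | zero =>
        rw [pow_zero, pow_zero, one_smul]
        exact Category.comp_id α
      | succ n ih =>
        rw [pow_succ', pow_succ']
        change α ≫ ((φ ^ n : End N).asHom ≫ φ.asHom) = _
        rw [← Category.assoc, ih, Linear.smul_comp, h, smul_smul, mul_comm]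
    have h1 : (algebraMap ℚ (End N) a * φ ^ n : End N) = a • (φ ^ n : End N) := by
      rw [Algebra.smul_def]
    rw [h1]
    change α ≫ (a • (φ ^ n : End N).asHom) = _
    rw [Linear.comp_smul, hpow, smul_smul]

lemma comp_pw_of_smul {A N : C} (α : A ⟶ N) (θ : N ⟶ N) (c : ℚ) (h : α ≫ θ = c • α) (m : ℕ) :
    α ≫ pw θ m = c ^ m • α := by
  induction m with
  | zero =>
    rw [pow_zero, one_smul]
    exact Category.comp_id α
  | succ m ih =>
    change α ≫ (pw θ m ≫ θ) = _
    rw [← Category.assoc, ih, Linear.smul_comp, h, smul_smul, pow_succ]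

end cat

variable {C : Type u} [Category.{v} C] [Preadditive C] [Linear ℚ C]
  [MonoidalCategory C] [SymmetricCategory C] [MonoidalPreadditive C] [MonoidalLinear ℚ C]
  [RigidCategory C] [HasBinaryBiproducts C] [IsIdempotentComplete C]
  {F : Type w} [Field F] {W : MotivicHomology C F}

/-- a product of polynomials in `φ` kills `x` if one of the factors does -/
lemma aeval_mul_kill {N : C} (φ : End N) (P Q : Polynomial ℚ) (x : W.H.obj N)
    (h : (W.H.map (Polynomial.aeval φ P : End N).asHom).hom x = 0) :
    (W.H.map (Polynomial.aeval φ (P * Q) : End N).asHom).hom x = 0 := by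
  have h1 : (Polynomial.aeval φ (P * Q) : End N).asHom =
      (Polynomial.aeval φ P : End N).asHom ≫ (Polynomial.aeval φ Q : End N).asHom := by
    rw [mul_comm, map_mul]
    rfl
  rw [h1, W.map_comp_apply, h, map_zero]

/-- (D*) for all Tate twists -/
lemma locNil_twist (h : LocNil W) {N : C} (l : ℤ) (θ : N ⟶ N)
    (hθ : ∀ j, j ≠ 2 * l → ∀ x ∈ W.gr N j, (W.H.map θ).hom x = 0)
    (α : W.CH l N) (hα : W.H.map α = 0) : ∃ m : ℕ, α ≫ pw θ m = 0 := by
  have e : W.T 0 = W.T (l + -l) := by rw [add_neg_cancel]
  obtain ⟨m, hm⟩ := h (N ⊗ W.T (-l)) (θ ▷ W.T (-l)) (by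
    intro j hj x hx
    refine map_whisker_zero θ (-l) j ?_ x hx
    intro y hy
    exact hθ _ (by omega) y hy) (eqToHom e ≫ (W.tateAdd l (-l)).hom ≫ α ▷ W.T (-l)) (by
    change W.H.map _ = 0
    have h0 : W.H.map (α ▷ W.T (-l)) = 0 := by
      have := W.H_tensor_zero α (𝟙 (W.T (-l))) hα
      rwa [tensorHom_id] at this
    rw [Functor.map_comp, Functor.map_comp, h0, comp_zero, comp_zero])
  refine ⟨m, ?_⟩
  apply whisker_faithful (W := W) _ (-l)
  rw [NilAux.pw_whisker] at hm
  have h1 : (α ≫ pw θ m) ▷ W.T (-l) = (W.tateAdd l (-l)).inv ≫ eqToHom e.symm ≫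
      (eqToHom e ≫ (W.tateAdd l (-l)).hom ≫ α ▷ W.T (-l)) ≫ (pw θ m) ▷ W.T (-l) := by
    simp
  rw [h1, hm]
  simp

/-- **(D*) and the Frobenius endomorphisms give `rational = homological`** -/
theorem eq_zero_of_frobenius (hF : Frobenius W) (h : LocNil W) {N : C} {l : ℤ} (α : W.CH l N)
    (hα : W.H.map α = 0) : α = 0 := by
  classical
  obtain ⟨φ, c, P, hφ, hP, -, hc⟩ := hF N l α
  obtain ⟨s, hs⟩ := exists_degrees W N
  obtain ⟨m, hm⟩ := locNil_twist h l
    (Polynomial.aeval φ (∏ i ∈ s.erase (2 * l), P i) : End N).asHom (by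
      intro i hi x hx
      by_cases his : i ∈ s
      · rw [← Finset.mul_prod_erase (s.erase (2 * l)) P (Finset.mem_erase.2 ⟨hi, his⟩)]
        exact aeval_mul_kill φ _ _ x (hP i x hx)
      · rw [hs i his x hx, map_zero]) α hα
  rw [comp_pw_of_smul α _ _ (comp_aeval α φ c hφ _)] at hm
  refine (smul_eq_zero.1 hm).resolve_left (pow_ne_zero _ ?_)
  rw [Polynomial.eval_prod]
  exact Finset.prod_ne_zero_iff.2 (fun i hi => hc i (Finset.ne_of_mem_erase hi))

/-- **Over the algebraic closure of a finite field, Murre's conjectures and `homological =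
numerical` imply `rational = numerical`.** -/
theorem ratNum_of_murreAll (hF : Frobenius W) (hM : MurreAll W)
    (hN : Pool.Agent.Helper15.MADR.HomNum W) : RatNum W := by
  intro M l α hα
  exact eq_zero_of_frobenius hF (locNil_of_murreAll hM) α (hN l M α hα)

end Pool.Agent.Helper84.MADR
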