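import Pool.Agent.Helper88.MADR.Setting
import Pool.Agent.Helper15.MADR.Reg
import Pool.Agent.Helper15.Murre.Twist
import Pool.Agent.Helper15.Murre.Descent
import Pool.Agent.Helper58.MAD.Basic

/-!
# Transfer of `homological = numerical` from `k` to the extensions of `k`
-/

open CategoryTheory MonoidalCategory Limits TensorProduct
open Pool.Agent.Helper15.Murre Pool.Agent.Helper58.MAD Pool.Agent.Helper88.MADR
open Pool.Agent.Helper15.MADR (HomNum)

universe w v u

set_option linter.unusedSectionVars false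

namespace Pool.Agent.Helper84.MADR

variable {C : Type u} [Category.{v} C] [Preadditive C] [Linear ℚ C]
  [MonoidalCategory C] [SymmetricCategory C] [MonoidalPreadditive C] [MonoidalLinear ℚ C]
  [RigidCategory C] {F : Type w} [Field F] {W : MotivicHomology C F}
variable {C' : Type u} [Category.{v} C'] [Preadditive C'] [Linear ℚ C']
  [MonoidalCategory C'] [SymmetricCategory C'] [MonoidalPreadditive C'] [MonoidalLinear ℚ C']
  [RigidCategory C'] {W' : MotivicHomology C' F} {Φ : C ⥤ C'}

/-- homological = numerical equivalence for the cycles on `P` -/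
def HN (W : MotivicHomology C F) (P : C) : Prop :=
  ∀ (l : ℤ) (α : W.CH l P), (∀ β : P ⟶ W.T l, α ≫ β = 0) → W.H.map α = 0

/-- `homological = numerical` for the fibre of a smooth projective family over `k` -/
theorem HN.of_fibred (B : BaseChange W W' Φ) (h : HomNum W) {P : C'} (hP : Fibred B P) :
    HN W' P := by
  have hadd := B.additive
  have hfaith := B.faithful
  have hadd' := W'.additive
  intro l α hα
  obtain ⟨N, N', b, b', β, s, hβ, hs, hinv⟩ := hP l ((B.tate l).inv ≫ α)
  have h1 : W.H.map (β ≫ s) = 0 := by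
    apply h l N' (β ≫ s)
    intro γ
    apply W.endTate_eq_zero l
    apply W.hext
    intro j x hx
    apply (B.comp (W.T l)).injective
    rw [B.comp_nat]
    have h2 : W'.H.map (Φ.map ((β ≫ s) ≫ γ)) = 0 := by
      have h3 : W'.H.map (Φ.map ((β ≫ s) ≫ γ)) =
          W'.H.map (Φ.map β) ≫ W'.H.map (Φ.map s) ≫ W'.H.map (Φ.map γ) := by
        simp only [Functor.map_comp, Category.assoc]
      rw [h3, ← hs, ← W'.H.map_comp, ← W'.H.map_comp]
      have h4 : Φ.map β ≫ (b ≫ b') ≫ Φ.map γ =
          (B.tate l).inv ≫ (α ≫ b' ≫ Φ.map γ ≫ (B.tate l).inv) ≫ (B.tate l).hom := by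
        rw [← Category.assoc, ← Category.assoc (Φ.map β), hβ]
        simp
      rw [h4, hα, zero_comp, comp_zero, Functor.map_zero]
    rw [h2]
    change (0 : W'.H.obj _) = B.comp _ (0 : W.H.obj _)
    rw [map_zero]
  have h5 : W'.H.map ((B.tate l).inv ≫ α) = 0 := by
    rw [← hβ]
    ext x
    obtain ⟨y, rfl⟩ := (B.comp (W.T l)).surjective x
    rw [W'.map_comp_apply, ← B.comp_nat]
    apply hinv
    rw [← W.map_comp_apply, h1]
    rfl
  have h6 : α = (B.tate l).hom ≫ ((B.tate l).inv ≫ α) := by simp
  rw [h6, Functor.map_comp, h5, comp_zero]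

lemma HN.retract {N P : C} (h : HN W P) (R : Retract N P) : HN W N := by
  intro l α hα
  have h1 := h l (α ≫ R.i) (fun γ => by rw [Category.assoc]; exact hα _)
  have h2 : α = (α ≫ R.i) ≫ R.r := by simp
  rw [h2, Functor.map_comp, h1, zero_comp]

lemma map_eq_zero_of_whisker {A M : C} (f : A ⟶ M) (n : ℤ) (h : W.H.map (f ▷ W.T n) = 0) :
    W.H.map f = 0 := by
  have h1 : W.H.map ((f ▷ W.T n) ▷ W.T (-n)) = 0 := by
    have := W.H_tensor_zero (f ▷ W.T n) (𝟙 (W.T (-n))) h
    rwa [tensorHom_id] at this
  have h2 : f = (untwist W A n).inv ≫ ((f ▷ W.T n) ▷ W.T (-n)) ≫ (untwist W M n).hom := by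
    rw [untwist_natural, Iso.inv_hom_id_assoc]
  rw [h2, Functor.map_comp, Functor.map_comp, h1, zero_comp, comp_zero]

lemma HN.twist {P : C} (h : HN W P) (m : ℤ) : HN W (P ⊗ W.T m) := by
  intro l α hα
  have h1 : W.H.map (shiftCH W l m α) = 0 := by
    apply h (l - m)
    intro γ
    have e : W.T (l - m + m) = W.T l := by rw [sub_add_cancel]
    have h2 := hα ((γ ▷ W.T m) ≫ (W.tateAdd (l - m) m).inv ≫ eqToHom e)
    have h3 : α ≫ (γ ▷ W.T m) = 0 := by
      have h4 := congrArg (fun t => t ≫ eqToHom e.symm ≫ (W.tateAdd (l - m) m).hom) h2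
      simpa using h4
    unfold shiftCH
    rw [Category.assoc, Category.assoc, Category.assoc, ← untwist_natural,
      ← comp_whiskerRight_assoc, h3]
    simp
  apply map_eq_zero_of_whisker α (-m)
  have e1 : W.T (l - m) = W.T (l + -m) := by rw [sub_eq_add_neg]
  have h5 : α ▷ W.T (-m) = (W.tateAdd l (-m)).inv ≫ eqToHom e1.symm ≫
      (shiftCH W l m α) ≫ (untwist W P m).inv := by
    unfold shiftCH
    simp
  rw [h5, Functor.map_comp, Functor.map_comp, Functor.map_comp, h1]
  simp

/-- `homological = numerical` over an algebraically closed extension of `k` -/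
theorem homNum_of_fibred (B : BaseChange W W' Φ) (h : HomNum W) {ι : Type*} (X : ι → C')
    (hX : ∀ i, Fibred B (X i))
    (hgen : ∀ M : C', ∃ (i : ι) (m : ℤ), Nonempty (Retract M (X i ⊗ W'.T m))) : HomNum W' := by
  intro l M
  obtain ⟨i, m, ⟨R⟩⟩ := hgen M
  exact (((HN.of_fibred B h (hX i)).twist m).retract R) l

/-- `homological = numerical` descends from the algebraic closure -/
theorem HomNum.descend (B : BaseChange W W' Φ) (hD : NumbersDescend W Φ) (h : HomNum W') :
    HomNum W := by
  have hadd := B.additive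
  intro l M α hα
  have h1 : W'.H.map ((B.tate l).hom ≫ Φ.map α) = 0 := by
    apply h l
    intro β
    obtain ⟨β₀, hβ₀⟩ := hD M l (β ≫ (B.tate l).hom)
    have h2 := hβ₀ α
    rw [hα, Functor.map_zero, ← Category.assoc] at h2
    have h3 : Φ.map α ≫ β = 0 := by
      have h4 := congrArg (fun t => t ≫ (B.tate l).inv) h2
      simpa using h4
    rw [Category.assoc, h3, comp_zero]
  have h2 : W'.H.map (Φ.map α) = 0 := by
    have h3 : Φ.map α = (B.tate l).inv ≫ (B.tate l).hom ≫ Φ.map α := by simp
    rw [h3, Functor.map_comp, h1, comp_zero]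
  ext x
  apply (B.comp M).injective
  change B.comp M ((W.H.map α).hom x) = B.comp M (0 : W.H.obj M)
  rw [B.comp_nat, h2, map_zero]
  rfl

section motives

variable {F : Type w} [Field F]

/-- `homological = numerical` over an algebraically closed extension -/
theorem homNum_closed {M M' : Motives.{w, v, u} F} {Var : Type u} {h : Var → M'.C} {t : ℕ∞}
    (H : HasModels M M' h t)
    (hgen : ∀ N : M'.C, ∃ (X : Var) (m : ℤ), Nonempty (Retract N (h X ⊗ M'.W.T m)))
    (hN : HomNum M.W) : HomNum M'.W := by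
  obtain ⟨Φ, B, hX⟩ := H
  exact homNum_of_fibred B hN h (fun X => (hX X).2.1) hgen

/-- `homological = numerical` descends from the algebraic closure -/
theorem homNum_closure {M M' : Motives.{w, v, u} F} (H : IsClosure M M') (h : HomNum M'.W) :
    HomNum M.W := by
  obtain ⟨Φ, ⟨B⟩, -, hD⟩ := H
  exact HomNum.descend B hD h

end motives

end Pool.Agent.Helper84.MADR
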